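import Pool.Graph.R_pool_sql_team_seeded_620a6dc7.helper380_c0_.Homeo
import Pool.Graph.R_pool_sql_team_seeded_620a6dc7.helper380_c0_.NotIso

set_option autoImplicit false

namespace Pool.Agent.KS6_77.Czero

open Set Filter Topology TopologicalSpace
open scoped ZeroAtInfty

section
variable {Γ : Type} [TopologicalSpace Γ] [DiscreteTopology Γ]

omit [DiscreteTopology Γ] in
theorem norm_le_iff (f : C₀(Γ, ℝ)) {C : ℝ} (hC : 0 ≤ C) : ‖f‖ ≤ C ↔ ∀ γ, |f γ| ≤ C := by
  rw [← ZeroAtInftyContinuousMap.norm_toBCF_eq_norm, BoundedContinuousFunction.norm_le hC]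
  rfl

theorem fin_large (f : C₀(Γ, ℝ)) {ε : ℝ} (hε : 0 < ε) : {γ | ε ≤ |f γ|}.Finite := by
  have h := f.zero_at_infty'
  rw [cocompact_eq_cofinite] at h
  have h1 := (Metric.tendsto_nhds.1 h) ε hε
  rw [eventually_cofinite] at h1
  refine h1.subset fun γ hγ => ?_
  show ¬ dist (f γ) 0 < ε
  rw [Real.dist_0_eq_abs]
  exact not_lt.2 hγ

theorem countable_supp (f : C₀(Γ, ℝ)) : {γ | f γ ≠ 0}.Countable := by
  have : {γ | f γ ≠ 0} ⊆ ⋃ n : ℕ, {γ | (1 : ℝ) / (n + 1) ≤ |f γ|} := by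
    intro γ hγ
    obtain ⟨n, hn⟩ := exists_nat_one_div_lt (abs_pos.2 hγ)
    exact mem_iUnion.2 ⟨n, hn.le⟩
  exact (countable_iUnion fun n : ℕ => (fin_large f (by positivity)).countable).mono this

/-- re-indexing along a countable set of coordinates -/
noncomputable def reind (S : Set Γ) (j : S → ℕ) (hj : Function.Injective j) (f : C₀(Γ, ℝ)) :
    C₀(ℕ, ℝ) where
  toFun := Function.extend j (fun γ => f γ) 0
  continuous_toFun := continuous_of_discreteTopology
  zero_at_infty' := by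
    rw [cocompact_eq_cofinite]
    rw [Metric.tendsto_nhds]
    intro ε hε
    rw [eventually_cofinite]
    have h1 : ((fun γ : S => γ.1) ⁻¹' {γ | ε ≤ |f γ|}).Finite :=
      (fin_large f hε).preimage Subtype.val_injective.injOn
    refine (h1.image j).subset fun n hn => ?_
    have hn' : ¬ dist (Function.extend j (fun γ => f γ) 0 n) 0 < ε := hn
    rw [Real.dist_0_eq_abs, not_lt] at hn'
    by_cases hex : ∃ γ, j γ = n
    · obtain ⟨γ, rfl⟩ := hex
      rw [hj.extend_apply] at hn'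
      exact ⟨γ, hn', rfl⟩
    · rw [Function.extend_apply' _ _ _ hex] at hn'
      simp at hn'
      exact absurd hε (not_lt.2 hn')

theorem reind_apply (S : Set Γ) (j : S → ℕ) (hj : Function.Injective j) (f : C₀(Γ, ℝ)) (γ : S) :
    reind S j hj f (j γ) = f γ := by
  show Function.extend j (fun γ => f γ) 0 (j γ) = f γ
  rw [hj.extend_apply]

theorem reind_apply' (S : Set Γ) (j : S → ℕ) (hj : Function.Injective j) (f : C₀(Γ, ℝ)) (n : ℕ)
    (h : ¬ ∃ γ, j γ = n) : reind S j hj f n = 0 := by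
  show Function.extend j (fun γ => f γ) 0 n = 0
  rw [Function.extend_apply' _ _ _ h]
  rfl

theorem reind_norm (S : Set Γ) (j : S → ℕ) (hj : Function.Injective j) (f : C₀(Γ, ℝ))
    (hf : ∀ γ, γ ∉ S → f γ = 0) : ‖reind S j hj f‖ = ‖f‖ := by
  apply le_antisymm
  · rw [norm_le_iff _ (norm_nonneg _)]
    intro n
    by_cases hex : ∃ γ, j γ = n
    · obtain ⟨γ, rfl⟩ := hex
      rw [reind_apply]
      exact (norm_le_iff f (norm_nonneg _)).1 le_rfl _
    · rw [reind_apply' _ _ _ _ _ hex]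
      simp
  · rw [norm_le_iff _ (norm_nonneg _)]
    intro γ
    by_cases hγ : γ ∈ S
    · rw [← reind_apply S j hj f ⟨γ, hγ⟩]
      exact (norm_le_iff _ (norm_nonneg _)).1 le_rfl _
    · rw [hf γ hγ]
      simp

end

/-- from `c₀(Γ)` to `c₀` for separable spaces -/
theorem reduce {E : Type} [NormedAddCommGroup E] [NormedSpace ℝ E] [SeparableSpace E] (Γ : Type)
    [TopologicalSpace Γ] [DiscreteTopology Γ] (T : E → C₀(Γ, ℝ)) (C : ℝ) (hC0 : 0 ≤ C)
    (hadd : ∀ x y, T (x + y) = T x + T y) (hsmul : ∀ (a : ℝ) x, T (a • x) = a • T x)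
    (hb : ∀ x, ‖T x‖ ≤ C * ‖x‖) : ∃ T' : E → C₀(ℕ, ℝ), (∀ x y, T' (x + y) = T' x + T' y) ∧
      (∀ (a : ℝ) x, T' (a • x) = a • T' x) ∧ ∀ x, ‖T' x‖ = ‖T x‖ := by
  classical
  let u := denseSeq E
  let S : Set Γ := ⋃ n, {γ | T (u n) γ ≠ 0}
  have hS : S.Countable := countable_iUnion fun n => countable_supp _
  have hz : ∀ γ, γ ∉ S → ∀ x, T x γ = 0 := by
    intro γ hγ x
    have hd : ∀ n, T (u n) γ = 0 := by
      intro n
      by_contra hne
      exact hγ (mem_iUnion.2 ⟨n, hne⟩)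
    by_contra hne
    have hpos : 0 < |T x γ| / (C + 1) := div_pos (abs_pos.2 hne) (by linarith)
    obtain ⟨y, ⟨n, hn⟩, hy⟩ := Metric.mem_closure_iff.1 ((denseRange_denseSeq E) x) _ hpos
    obtain rfl : u n = y := hn
    have h1 : T x = T (x - u n) + T (u n) := by rw [← hadd, sub_add_cancel]
    have h2 : T x γ = T (x - u n) γ := by
      rw [h1, ZeroAtInftyContinuousMap.add_apply, hd n, add_zero]
    have h3 : |T (x - u n) γ| ≤ C * ‖x - u n‖ :=
      ((norm_le_iff (T (x - u n)) (norm_nonneg _)).1 le_rfl γ).trans (hb _)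
    rw [← h2] at h3
    rw [dist_eq_norm, lt_div_iff₀ (by linarith)] at hy
    have h4 : C * ‖x - u n‖ ≤ ‖x - u n‖ * (C + 1) := by
      have := norm_nonneg (x - u n)
      nlinarith
    linarith
  obtain ⟨j, hj⟩ := (Set.countable_iff_exists_injective (s := S)).1 hS
  refine ⟨fun x => reind S j hj (T x), ?_, ?_, fun x =>
    reind_norm S j hj (T x) (fun γ hγ => hz γ hγ x)⟩
  · intro x y
    ext n
    by_cases hex : ∃ γ, j γ = n
    · obtain ⟨γ, rfl⟩ := hex
      rw [ZeroAtInftyContinuousMap.add_apply, reind_apply, reind_apply, reind_apply, hadd]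
      rfl
    · rw [ZeroAtInftyContinuousMap.add_apply, reind_apply' _ _ _ _ _ hex,
        reind_apply' _ _ _ _ _ hex, reind_apply' _ _ _ _ _ hex, add_zero]
  · intro a x
    ext n
    by_cases hex : ∃ γ, j γ = n
    · obtain ⟨γ, rfl⟩ := hex
      rw [ZeroAtInftyContinuousMap.smul_apply, reind_apply, reind_apply, hsmul]
      rfl
    · rw [ZeroAtInftyContinuousMap.smul_apply, reind_apply' _ _ _ _ _ hex,
        reind_apply' _ _ _ _ _ hex, smul_zero]

/-- finitely supported rational sequences in `c₀` -/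
noncomputable def fsup (q : ℕ →₀ ℚ) : C₀(ℕ, ℝ) where
  toFun := fun n => (q n : ℝ)
  continuous_toFun := continuous_of_discreteTopology
  zero_at_infty' := by
    rw [cocompact_eq_cofinite]
    refine tendsto_const_nhds.congr' ?_
    have h : {n | q n ≠ 0}.Finite := q.hasFiniteSupport
    have h2 : ∀ᶠ n in cofinite, q n = 0 := by
      rw [eventually_cofinite]
      exact h
    filter_upwards [h2] with n hn
    rw [hn]
    simp

theorem sep_c0 : SeparableSpace C₀(ℕ, ℝ) := by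
  classical
  refine ⟨range fsup, countable_range _, fun f => ?_⟩
  rw [Metric.mem_closure_iff]
  intro ε hε
  have hfin := fin_large f (half_pos hε)
  have hq : ∀ n, ∃ q : ℚ, |f n - q| < ε / 2 := by
    intro n
    obtain ⟨q, hq1, hq2⟩ := exists_rat_btwn (show f n - ε / 2 < f n by linarith)
    exact ⟨q, by rw [abs_lt]; constructor <;> linarith⟩
  choose q hq using hq
  let g : ℕ →₀ ℚ := Finsupp.onFinset hfin.toFinset
    (fun n => if ε / 2 ≤ |f n| then q n else 0) (by
      intro n hn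
      by_contra hc
      apply hn
      rw [if_neg]
      intro h
      exact hc (hfin.mem_toFinset.2 h))
  refine ⟨fsup g, ⟨g, rfl⟩, ?_⟩
  rw [dist_eq_norm]
  refine lt_of_le_of_lt ((norm_le_iff _ (half_pos hε).le).2 fun n => ?_) (half_lt_self hε)
  rw [ZeroAtInftyContinuousMap.sub_apply]
  show |f n - (((if ε / 2 ≤ |f n| then q n else 0 : ℚ)) : ℝ)| ≤ ε / 2
  by_cases h : ε / 2 ≤ |f n|
  · rw [if_pos h]
    exact (hq n).le
  · rw [if_neg h]
    push Not at h
    simp only [Rat.cast_zero, sub_zero]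
    exact h.le

theorem sep_of_equiv {X : Type} [PseudoMetricSpace X] (e : UniformEquiv X C₀(ℕ, ℝ)) :
    SeparableSpace X := by
  have := sep_c0
  exact e.symm.toHomeomorph.surjective.denseRange.separableSpace e.symm.toHomeomorph.continuous

open Pool.Agent.helper380_c0 in
theorem main : ∃ (X : Type) (_ : NormedAddCommGroup X) (_ : NormedSpace ℝ X) (_ : CompleteSpace X),
    Nonempty (UniformEquiv X C₀(ℕ, ℝ)) ∧
    ∀ (Γ : Type) (_ : TopologicalSpace Γ) (_ : DiscreteTopology Γ) (T : X → C₀(Γ, ℝ)),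
      Continuous T → (∀ x y, T (x + y) = T x + T y) → (∀ (a : ℝ) x, T (a • x) = a • T x) →
      ∀ c : ℝ, 0 < c → ∃ x, ‖T x‖ < c * ‖x‖ := by
  obtain ⟨s⟩ := exists_sys
  refine ⟨s.X, inferInstance, inferInstance, inferInstance, s.uniformEquiv,
    fun Γ _ _ T hT hadd hsmul c hc => ?_⟩
  obtain ⟨e⟩ := s.uniformEquiv
  obtain ⟨C, hC0, hC⟩ := Sys.bound_of_continuous T hT hsmul
  by_contra hcon
  push Not at hcon
  have := sep_of_equiv e
  obtain ⟨T', h1, h2, h3⟩ := reduce Γ T C hC0 hadd hsmul hC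
  refine s.not_embed ⟨T', C, hC0, h1, h2, fun x => (h3 x).trans_le (hC x)⟩ c⁻¹ fun x => ?_
  have h4 := hcon x
  rw [← h3 x] at h4
  show ‖x‖ ≤ c⁻¹ * ‖T' x‖
  rw [← div_eq_inv_mul, le_div_iff₀ hc, mul_comm]
  exact h4

end Pool.Agent.KS6_77.Czero
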